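import Pool.Agent.H.MP_20b771_lc.Approx
import Pool.Agent.H.MP_20b771_lc.Tester

namespace Pool.Agent.Results.MP_20b771_lc.Equivalence

open Pool.Agent.H.MP_20b771_lc

/-- For every `δ` with `0 < δ ≤ 1` the following are equivalent: there is an fpras for the number
of 4-colourings of planar graphs; there is a randomized polynomial-time algorithm which
approximates this number within the factor `2 ^ (n ^ (1 - δ))`; NP = RP. -/
theorem result (δ : ℝ) (h0 : 0 < δ) (h1 : δ ≤ 1) :
    List.TFAE [HasFpras,
      HasApprox fun n => 2 ^ ((n : ℝ) ^ (1 - δ)),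
      ∀ (Γ : Type) [Fintype Γ] (L : Set (List Γ)), NP L ↔ RP L] := by
  tfae_have 1 → 3 := fun h Γ _ L => np_iff_rp (tester_of_fpras h) L
  tfae_have 2 → 3 := fun h Γ _ L => np_iff_rp (tester_of_approx h0 h) L
  tfae_have 3 → 1 := fun h => fpras_of_rp fun L hL => (h _ L).1 hL
  tfae_have 3 → 2 := by
    intro h
    refine approx_of_rp (fun L hL => (h _ L).1 hL) ?_ ?_
    · rcases eq_or_ne (1 - δ) 0 with h2 | h2
      · right
        rw [h2, Real.rpow_zero, Real.rpow_one]
      · left
        rw [Nat.cast_zero, Real.zero_rpow h2, Real.rpow_zero]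
    · intro n hn
      have h2 : (1 : ℝ) ≤ (n : ℝ) ^ (1 - δ) :=
        Real.one_le_rpow (by exact_mod_cast hn) (by linarith)
      calc (2 : ℝ) = 2 ^ (1 : ℝ) := (Real.rpow_one 2).symm
        _ ≤ _ := Real.rpow_le_rpow_of_exponent_le (by norm_num) h2
  tfae_finish

end Pool.Agent.Results.MP_20b771_lc.Equivalence
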